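import Pool.Agent.Helper65.NX.K80.WIN

/-!
# Project NW, packet CHK: the checks of descriptions are right
-/

namespace Pool.Agent.Helper65.NX.K80

open Pool.Agent.Helper65.LinSpace Pool.Agent.Helper78.Mpc Pool.Agent.Helper28.Ram Finset
open Pool.Agent.Helper65.NX
open Pool.Agent.Helper81.Sus2 (Decomp)

theorem eq01_ne {x y : ℕ} : eq01 x y ≠ 0 ↔ x = y := by
  unfold eq01
  split_ifs with h
  · simp [h]
  · simp [h]

theorem lt01_ne {x y : ℕ} : lt01 x y ≠ 0 ↔ x < y := by
  unfold lt01
  split_ifs with h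
  · simp [h]
  · simp [h]

theorem log_lt {v n : ℕ} (h : Nat.log 2 v = n) : v < 2 ^ (n + 1) := by
  rw [← h]
  exact Nat.lt_pow_succ_log_self (by norm_num) v

theorem exists_word {v n : ℕ} (h0 : v ≠ 0) (h : Nat.log 2 v = n) :
    ∃ z : List Bool, z.length = n ∧ num z = v := by
  obtain ⟨z, hz⟩ := Pool.Agent.Helper78.Avg.exists_num (Nat.pos_of_ne_zero h0)
  refine ⟨z, ?_, hz⟩
  rw [← log_num, hz, h]

/-- The meaning of `bad`. -/
theorem bad_eq_zero (P : Prm) (p c τ d z : ℕ) :
    P.bad p c τ d z = 0 ↔ (P.win p c).sim τ z ≠ 0 ∧ (P.win p c).sim τ z = P.say p d z := by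
  unfold Prm.bad
  generalize (P.win p c).sim τ z = a
  generalize P.say p d z = b
  unfold lt01 eq01
  by_cases ha : 0 < a
  · by_cases hb : a = b
    · subst hb
      simp [ha, ha.ne']
    · simp [hb]
  · have h0 : a = 0 := by omega
    simp [h0]

/-- No cell is bad. -/
theorem sum_bad (P : Prm) (p : List Bool) (c τ d : ℕ) :
    ∑ i ∈ range (2 ^ Nat.log 2 (num p)), P.bad (num p) c τ d (2 ^ Nat.log 2 (num p) + i) = 0 ↔
      ∀ z : List Bool, z.length = p.length → (P.win (num p) c).sim τ (num z) ≠ 0 ∧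
        (P.win (num p) c).sim τ (num z) = P.say (num p) d (num z) := by
  rw [log_num, Finset.sum_eq_zero_iff]
  constructor
  · intro h z hz
    have h1 : 2 ^ p.length ≤ num z := by
      have := Nat.pow_log_le_self 2 (num_pos z).ne'
      rwa [log_num, hz] at this
    have h2 := num_lt_len z
    rw [hz, pow_succ] at h2
    have h3 := h (num z - 2 ^ p.length) (mem_range.2 (by omega))
    rw [show 2 ^ p.length + (num z - 2 ^ p.length) = num z by omega] at h3
    exact (bad_eq_zero _ _ _ _ _ _).1 h3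
  · intro h i hi
    rw [mem_range] at hi
    have h1 : Nat.log 2 (2 ^ p.length + i) = p.length := by
      rw [Nat.log_eq_iff (Or.inr ⟨by norm_num, by positivity⟩), pow_succ]
      omega
    obtain ⟨z, hz, hzv⟩ := exists_word (by positivity) h1
    rw [← hzv]
    exact (bad_eq_zero _ _ _ _ _ _).2 (h z hz)

theorem inp_closed (P : Prm) (p : List Bool) (t v i : ℕ) (h : v ≠ 0 ∧ Nat.log 2 v = p.length) :
    P.inpN (num p) t v i ≠ 0 ∧ Nat.log 2 (P.inpN (num p) t v i) = p.length := by
  unfold Prm.inpN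
  rw [wd_num]
  by_cases hc : lt01 0 (P.nbN (num p) t v i) *
      eq01 (Nat.log 2 (P.nbN (num p) t v i)) (Nat.log 2 (num p)) = 0
  · rw [hc, ifz_zero, Nat.mod_eq_of_lt (log_lt h.2)]
    exact h
  · rw [ifz_ne hc]
    obtain ⟨h1, h2⟩ := mul_ne_zero_iff.1 hc
    rw [lt01_ne] at h1
    rw [eq01_ne, log_num] at h2
    rw [Nat.mod_eq_of_lt (log_lt h2)]
    exact ⟨h1.ne', h2⟩

/-- Packet CHK. -/
theorem chk (hT : Pool.Agent.Helper65.NX.TREE_stmt) : Pool.Agent.Helper65.NX.CHK_stmt := by
  intro A w y p P R hR hx hy hZR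
  have hwd : ∀ z : List Bool, z.length = p.length → ∀ c, num z < (P.win (num p) c).Wd := by
    intro z hz c
    show num z < Prm.wd (num p)
    rw [wd_num, ← hz]
    exact num_lt_len z
  -- values which are not `0` are right
  have hval : ∀ c t τ, Rep A w y p P c t → t + τ ≤ R → ∀ z : List Bool, z.length = p.length →
      (P.win (num p) c).sim τ (num z) ≠ 0 →
      (P.win (num p) c).sim τ (num z) = num (A.val w y p (t + τ) z) ∧
        (A.val w y p (t + τ) z).length ≤ P.S := by
    intro c t τ hc hτ z hz hne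
    have h1 := (hT _ (hR.ok (num p) c)).1 τ (num z) (hwd z hz c) hne
    rw [h1] at hne ⊢
    exact hR.v1 c t hc τ hτ z hz hne
  refine ⟨?_, ?_, ?_⟩
  · intro c t τ d hc hτ hne
    unfold Prm.chk at hne
    obtain ⟨-, hne⟩ := mul_ne_zero_iff.1 hne
    obtain ⟨h2, hne⟩ := mul_ne_zero_iff.1 hne
    obtain ⟨h3, hne⟩ := mul_ne_zero_iff.1 hne
    obtain ⟨h4, h5⟩ := mul_ne_zero_iff.1 hne
    rw [lt01_ne] at h2 h3
    rw [eq01_ne] at h4 h5
    rw [hc.ct] at h4
    rw [sum_bad] at h5
    have hlt : P.ct d < 2 ^ P.Z := Nat.mod_lt _ (by positivity)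
    have hτR : t + τ ≤ R := by omega
    refine ⟨⟨h2.ne', h4, ?_, ?_⟩, h3⟩
    · intro z hz
      exact (hval c t τ hc hτR z hz (h5 z hz).1).2
    · intro z hz
      obtain ⟨h7, h8⟩ := h5 z hz
      obtain ⟨h9, h10⟩ := hval c t τ hc hτR z hz h7
      unfold Prm.pre
      rw [ifz_ne (by omega), ← h8, h9, capN_num h10]
  · intro r hr c t τ hc hτ hne
    unfold Prm.ac at hne
    obtain ⟨-, hne⟩ := mul_ne_zero_iff.1 hne
    obtain ⟨h2, h3⟩ := mul_ne_zero_iff.1 hne
    rw [eq01_ne, hc.ct] at h2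
    have h4 : (P.win (num p) c).sim τ (num p) ≠ 0 := by
      intro h
      rw [h] at h3
      exact h3 rfl
    obtain ⟨h5, -⟩ := hval c t τ hc (by omega) p rfl h4
    rw [h5, h2] at h3
    exact (accN_num _).1 (le_antisymm (accN_le _) (Nat.pos_of_ne_zero h3))
  · intro r hr hF hC c t hc
    have hrR : r ≤ R := by omega
    have hsim : ∀ τ, t + τ ≤ r → τ < P.N → ∀ z : List Bool, z.length = p.length →
        (P.win (num p) c).sim τ (num z) = num (A.val w y p (t + τ) z) := by
      intro τ hτ hN z hz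
      have h1 := (hT _ (hR.ok (num p) c)).2 (fun v => v ≠ 0 ∧ Nat.log 2 v = p.length)
        (fun v hv => by
          show v < Prm.wd (num p)
          rw [wd_num]
          exact log_lt hv.2)
        (fun t' v i hv _ => inp_closed P p _ v i hv) τ hN.le
        (fun t' ht' v hv k hk hkt => by
          obtain ⟨z', hz', hv'⟩ := exists_word hv.1 hv.2
          have h2 := hR.cn c t hc t' (by omega) z' hz' k hkt
          rw [hv'] at h2
          have h3 : (P.win (num p) c).cnt t' k v (P.win (num p) c).Wd =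
              (A.cone w.length p k (t + t') z').ncard := h2
          rw [h3]
          exact hC (t + t') (by omega) z' hz' k hk (by omega))
        (num z) ⟨(num_pos z).ne', by rw [log_num, hz]⟩
      rw [h1]
      exact hR.v2 c t hc r hrR hF τ hτ z hz
    refine ⟨?_, ?_⟩
    · intro hA τ h1 hτ
      unfold Prm.ac
      refine mul_ne_zero (lt01_ne.2 (Nat.pos_of_ne_zero hc.ne)) (mul_ne_zero ?_ ?_)
      · rw [eq01_ne, hc.ct, h1]
      · rw [hsim τ h1.le hτ p rfl, h1, (accN_num _).2 hA]
        exact one_ne_zero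
    · rintro E u hE htu hur huN ⟨D, hD, hS⟩
      have hb : 0 < 2 ^ P.Z := by positivity
      have hu : u < 2 ^ P.Z := by omega
      have hnum : num D < 2 ^ (P.z + 1) :=
        lt_of_lt_of_le (num_lt_len D) (Nat.pow_le_pow_right (by norm_num) (by omega))
      have e0 : 1 + u + 2 ^ P.Z * num D - 1 = u + 2 ^ P.Z * num D := by omega
      have e1 : P.ct (1 + u + 2 ^ P.Z * num D) = u := by
        unfold Prm.ct
        rw [e0, Nat.add_mul_mod_self_left, Nat.mod_eq_of_lt hu]
      have e2 : P.cD (1 + u + 2 ^ P.Z * num D) = num D := by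
        unfold Prm.cD
        rw [e0, Nat.add_mul_div_left _ _ hb, Nat.div_eq_of_lt hu, zero_add]
      refine ⟨1 + u + 2 ^ P.Z * num D, ?_, ?_⟩
      · unfold Prm.cz
        have h1 : 2 ^ P.Z * (num D + 1) ≤ 2 ^ P.Z * 2 ^ (P.z + 1) :=
          Nat.mul_le_mul_left _ hnum
        rw [mul_add, mul_one] at h1
        omega
      · unfold Prm.chk
        refine mul_ne_zero (lt01_ne.2 (Nat.pos_of_ne_zero hc.ne)) (mul_ne_zero
          (lt01_ne.2 (by omega)) (mul_ne_zero (lt01_ne.2 (by omega)) (mul_ne_zero ?_ ?_)))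
        · rw [eq01_ne, e1, hc.ct]
          omega
        · rw [eq01_ne, sum_bad]
          intro z hz
          have h1 := hsim (u - t) (by omega) (by omega) z hz
          rw [show t + (u - t) = u by omega] at h1
          have h2 := hE _ _ _ (hS z hz)
          have h3 : P.say (num p) (1 + u + 2 ^ P.Z * num D) (num z) =
              num (A.val w y p u z) := by
            unfold Prm.say
            rw [e1, e2, hdN_num hx, h2]
          rw [h1, h3]
          exact ⟨(num_pos _).ne', rfl⟩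

end Pool.Agent.Helper65.NX.K80
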