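import Pool.Agent.Helper65.NX.K80.INP

/-!
# Project NW, packet WIN: windows of the network on numbers are right
-/

namespace Pool.Agent.Helper65.NX.K80

open Pool.Agent.Helper65.LinSpace Pool.Agent.Helper78.Mpc Pool.Agent.Helper28.Ram Finset
open Pool.Agent.Helper65.NX

theorem capN_zero' (S : ℕ) : capN S 0 = 0 := by
  unfold capN
  rw [Nat.log_zero_right, lt01, if_neg (Nat.not_lt_zero S), ifz_zero]

theorem catN_zero_left (b : ℕ) : catN 0 b = 0 := by
  unfold catN
  exact ifz_zero _ _

theorem catN_zero_right (a : ℕ) : catN a 0 = 0 := by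
  by_contra h
  exact (catN_eq_zero h).2 rfl

theorem sdN_zero : sdN 0 = 0 := by
  unfold sdN
  exact ifz_zero _ _

theorem fnN_zero (e S Λ β B : ℕ) : fnN e S Λ β B 0 = 0 := by
  unfold fnN
  exact ifz_zero _ _

section ok

variable (P : Prm)

theorem viewN_zero (p t z X n : ℕ) (h : ∃ i < n, dig (2 ^ (P.S + 1)) X i = 0) :
    P.viewN p t z X n = 0 := by
  obtain ⟨i, hi, h0⟩ := h
  induction n with
  | zero => omega
  | succ n ih =>
    have e : P.viewN p t z X (n + 1) =
        catN (P.viewN p t z X n) (sdN (dig (2 ^ (P.S + 1)) X n)) := rfl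
    rw [e]
    rcases Nat.lt_succ_iff_lt_or_eq.1 hi with h | h
    · rw [ih h, catN_zero_left]
    · rw [← h, h0, sdN_zero, catN_zero_right]

theorem nxtN_zero : P.nxtN 0 = 0 := by
  have h : catN 2 0 = 0 := by simp [catN, ifz]
  unfold Prm.nxtN Prm.adrN
  rw [h, fnN_zero, ifz_zero, capN_zero']

theorem win_ok (q c : ℕ) : (P.win q c).Ok where
  hW := by
    show 0 < Prm.wd q
    unfold Prm.wd
    positivity
  hinp t z i := by
    show P.inpN q (P.ct c + t) z i < Prm.wd q
    unfold Prm.inpN
    exact Nat.mod_lt _ (by unfold Prm.wd; positivity)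
  hupd t z X := capN_lt P.S _
  hini z := by
    show P.pre q c z < 2 ^ (P.S + 1)
    unfold Prm.pre
    by_cases h : P.ct c = 0
    · rw [h, ifz_zero]
      exact Nat.one_lt_two_pow (by omega)
    · rw [ifz_ne h]
      exact capN_lt _ _
  hzero t z X h := by
    show P.nxtN (P.viewN q (P.ct c + t) z X P.dg) = 0
    rw [viewN_zero P q (P.ct c + t) z X P.dg h, nxtN_zero]

end ok

theorem cont_lt {m : Pool.Agent.Helper65.NX.Mach} (hm : m.Ok) (t z : ℕ) : m.cont t z < 2 ^ m.σ := by
  cases t with
  | zero => exact hm.hini z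
  | succ t => exact hm.hupd t z _

theorem length_inp (A : Net) (n : ℕ) {p z : List Bool} (hz : z.length = p.length) (t i : ℕ) :
    (A.inp n p t z i).length = p.length := by
  unfold Net.inp
  split_ifs with h
  · exact h
  · exact hz

/-- The facts on the functions of a network. -/
structure Facts (A : Net) (w y p : List Bool) (P : Prm) (R : ℕ) : Prop where
  dg : P.dg = A.deg
  inp : ∀ z : List Bool, z.length = p.length → ∀ t ≤ R, ∀ i < A.deg,
    P.inpN (num p) t (num z) i = num (A.inp w.length p t z i)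
  step : ∀ z : List Bool, z.length = p.length → ∀ t ≤ R, ∀ (X : ℕ) (v : List Bool → List Bool),
    (∀ i < A.deg, dig (2 ^ (P.S + 1)) X i = num (v (A.inp w.length p t z i))) →
    (∀ i < A.deg, (v (A.inp w.length p t z i)).length ≤ P.S) →
    P.nxtN (P.viewN (num p) t (num z) X P.dg) =
      if (∀ b, (A.addr (b :: A.view w.length p t v z A.deg)).length ≤ P.Z) ∧
        (A.step w y p t v z).length ≤ P.S then num (A.step w y p t v z) else 0

section

variable {A : Net} {w y p : List Bool} {P : Prm} {R : ℕ} (F : Facts A w y p P R)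

include F in
/-- The digits of the table of contents. -/
theorem dig_cont {c t τ : ℕ} (hc : P.ct c = t) (h : t + τ ≤ R) {z : List Bool}
    (hz : z.length = p.length) {i : ℕ} (hi : i < A.deg) :
    dig (2 ^ (P.S + 1)) (tab (2 ^ (P.S + 1)) P.dg fun i =>
      (P.win (num p) c).cont τ ((P.win (num p) c).inp τ (num z) i)) i =
      (P.win (num p) c).cont τ (num (A.inp w.length p (t + τ) z i)) := by
  have hok := win_ok P (num p) c
  have h1 : dig (2 ^ (P.S + 1)) (tab (2 ^ (P.S + 1)) P.dg fun i =>
      (P.win (num p) c).cont τ ((P.win (num p) c).inp τ (num z) i)) i =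
      (P.win (num p) c).cont τ ((P.win (num p) c).inp τ (num z) i) :=
    dig_tab (fun i _ => cont_lt hok _ _) (by rw [F.dg]; exact hi)
  have e : (P.win (num p) c).inp τ (num z) i = P.inpN (num p) (P.ct c + τ) (num z) i := rfl
  rw [h1, e, hc, F.inp z hz (t + τ) h i hi]

theorem cont_succ (c τ z : ℕ) : (P.win (num p) c).cont (τ + 1) z =
    P.nxtN (P.viewN (num p) (P.ct c + τ) z (tab (2 ^ (P.S + 1)) P.dg fun i =>
      (P.win (num p) c).cont τ ((P.win (num p) c).inp τ z i)) P.dg) := rfl

include F in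
theorem v1_aux {c t : ℕ} (Rp : Rep A w y p P c t) (τ : ℕ) : t + τ ≤ R → ∀ z : List Bool,
    z.length = p.length → (P.win (num p) c).cont τ (num z) ≠ 0 →
    (P.win (num p) c).cont τ (num z) = num (A.val w y p (t + τ) z) ∧
      (A.val w y p (t + τ) z).length ≤ P.S := by
  induction τ with
  | zero =>
    intro _ z hz _
    exact ⟨Rp.pre z hz, Rp.len z hz⟩
  | succ τ ih =>
    intro h z hz hne
    have hok := win_ok P (num p) c
    have hd : ∀ i < A.deg, dig (2 ^ (P.S + 1)) (tab (2 ^ (P.S + 1)) P.dg fun i =>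
        (P.win (num p) c).cont τ ((P.win (num p) c).inp τ (num z) i)) i ≠ 0 := by
      intro i hi h0
      apply hne
      exact hok.hzero τ (num z) _ ⟨i, by show i < P.dg; rw [F.dg]; exact hi, h0⟩
    have hih : ∀ i < A.deg, (P.win (num p) c).cont τ (num (A.inp w.length p (t + τ) z i)) =
        num (A.val w y p (t + τ) (A.inp w.length p (t + τ) z i)) ∧
        (A.val w y p (t + τ) (A.inp w.length p (t + τ) z i)).length ≤ P.S := by
      intro i hi
      refine ih (by omega) _ (length_inp A _ hz _ _) ?_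
      have h1 := hd i hi
      rwa [dig_cont F Rp.ct (by omega) hz hi] at h1
    have hs := F.step z hz (t + τ) (by omega) (tab (2 ^ (P.S + 1)) P.dg fun i =>
        (P.win (num p) c).cont τ ((P.win (num p) c).inp τ (num z) i)) (A.val w y p (t + τ))
      (fun i hi => by rw [dig_cont F Rp.ct (by omega) hz hi, (hih i hi).1])
      (fun i hi => (hih i hi).2)
    rw [cont_succ, Rp.ct] at hne ⊢
    have hv : A.val w y p (t + (τ + 1)) z = A.step w y p (t + τ) (A.val w y p (t + τ)) z := rfl
    rw [hv]
    rw [hs] at hne ⊢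
    split_ifs at hne ⊢ with h3
    · exact ⟨rfl, h3.2⟩
    · exact absurd rfl hne

include F in
theorem v2_aux {c t : ℕ} (Rp : Rep A w y p P c t) {r : ℕ} (hr : r ≤ R)
    (hfit : Fit A w y p r P.S P.Z) (τ : ℕ) : t + τ ≤ r → ∀ z : List Bool,
    z.length = p.length →
    (P.win (num p) c).cont τ (num z) = num (A.val w y p (t + τ) z) := by
  induction τ with
  | zero =>
    intro _ z hz
    exact Rp.pre z hz
  | succ τ ih =>
    intro h z hz
    have hs := F.step z hz (t + τ) (by omega) (tab (2 ^ (P.S + 1)) P.dg fun i =>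
        (P.win (num p) c).cont τ ((P.win (num p) c).inp τ (num z) i)) (A.val w y p (t + τ))
      (fun i hi => by
        rw [dig_cont F Rp.ct (by omega) hz hi]
        exact ih (by omega) _ (length_inp A _ hz _ _))
      (fun i hi => (hfit (t + τ) (by omega) _ (length_inp A _ hz _ _)).1)
    rw [cont_succ, Rp.ct, hs, if_pos]
    · rfl
    · exact ⟨(hfit (t + τ) (by omega) z hz).2, (hfit (t + (τ + 1)) h z hz).1⟩

theorem nrec_shift (z : ℕ) (f : ℕ → ℕ → ℕ) (j : ℕ) :
    nrec z f (j + 1) = nrec (f 0 z) (fun i => f (i + 1)) j := by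
  induction j with
  | zero => rfl
  | succ j ih => rw [nrec_succ, ih, nrec_succ]

theorem walk_succ (m : Pool.Agent.Helper65.NX.Mach) (τ z π j : ℕ) : m.walk τ z π (j + 1) =
    m.walk (τ - 1) (m.inp (τ - 1) z (dig m.dg π 0)) (π / m.dg) j := by
  unfold Pool.Agent.Helper65.NX.Mach.walk
  rw [nrec_shift]
  congr 1
  funext i u
  rw [dig_succ]
  congr 1
  omega

include F in
theorem walk_cone {c t : ℕ} (hc : P.ct c = t) (j : ℕ) : ∀ (τ : ℕ), j ≤ τ → t + τ ≤ R →
    ∀ z : List Bool, z.length = p.length → ∀ u : ℕ,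
    (∃ π < A.deg ^ j, (P.win (num p) c).walk τ (num z) π j = u) ↔
      ∃ v ∈ A.cone w.length p j (t + τ) z, num v = u := by
  induction j with
  | zero =>
    intro τ _ _ z _ u
    constructor
    · rintro ⟨π, _, h⟩
      exact ⟨z, rfl, h⟩
    · rintro ⟨v, hv, h⟩
      have hv' : v = z := hv
      refine ⟨0, by simp, ?_⟩
      rw [← h, hv']
      rfl
  | succ j ih =>
    intro τ hj hτ z hz u
    have ht : t + τ - 1 = t + (τ - 1) := by omega
    have hinp : ∀ i < A.deg, (P.win (num p) c).inp (τ - 1) (num z) i =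
        num (A.inp w.length p (t + (τ - 1)) z i) := by
      intro i hi
      have e : (P.win (num p) c).inp (τ - 1) (num z) i =
        P.inpN (num p) (P.ct c + (τ - 1)) (num z) i := rfl
      rw [e, hc]
      exact F.inp z hz _ (by omega) i hi
    have hdg : (P.win (num p) c).dg = A.deg := F.dg
    constructor
    · rintro ⟨π, hπ, h⟩
      have hd : 0 < A.deg := by
        rcases Nat.eq_zero_or_pos A.deg with h0 | h0
        · rw [h0, zero_pow (Nat.succ_ne_zero j)] at hπ
          omega
        · exact h0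
      have hi : dig A.deg π 0 < A.deg := dig_lt hd _ _
      rw [walk_succ, hdg, hinp _ hi] at h
      have hπ' : π / A.deg < A.deg ^ j := by
        rw [Nat.div_lt_iff_lt_mul hd, ← pow_succ]
        exact hπ
      obtain ⟨v, hv, hvu⟩ := (ih (τ - 1) (by omega) (by omega) _ (length_inp A _ hz _ _) u).1
        ⟨π / A.deg, hπ', h⟩
      refine ⟨v, ?_, hvu⟩
      show ∃ i < A.deg, v ∈ A.cone w.length p j (t + τ - 1) (A.inp w.length p (t + τ - 1) z i)
      rw [ht]
      exact ⟨_, hi, hv⟩
    · rintro ⟨v, ⟨i, hi, hv⟩, hvu⟩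
      rw [ht] at hv
      obtain ⟨π', hπ', h⟩ := (ih (τ - 1) (by omega) (by omega) _ (length_inp A _ hz _ _) u).2
        ⟨v, hv, hvu⟩
      have hd : 0 < A.deg := lt_of_le_of_lt (Nat.zero_le _) hi
      refine ⟨i + A.deg * π', ?_, ?_⟩
      · have h1 : A.deg * π' + A.deg ≤ A.deg * A.deg ^ j := by
          rw [← Nat.mul_succ]
          exact Nat.mul_le_mul_left _ hπ'
        rw [pow_succ, mul_comm (A.deg ^ j)]
        omega
      · have e1 : dig A.deg (i + A.deg * π') 0 = i := by
          rw [dig_zero, Nat.add_mul_mod_self_left, Nat.mod_eq_of_lt hi]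
        have e2 : (i + A.deg * π') / A.deg = π' := by
          rw [Nat.add_mul_div_left _ _ hd, Nat.div_eq_of_lt hi, zero_add]
        rw [walk_succ, hdg, e1, e2, hinp i hi]
        exact h

theorem length_cone (j : ℕ) : ∀ (t : ℕ) (z : List Bool), z.length = p.length →
    ∀ v ∈ A.cone w.length p j t z, v.length = p.length := by
  induction j with
  | zero =>
    intro t z hz v hv
    have hv' : v = z := hv
    rw [hv', hz]
  | succ j ih =>
    rintro t z hz v ⟨i, _, hv⟩
    exact ih _ _ (length_inp A _ hz _ _) v hv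

theorem mem_eq (m : Pool.Agent.Helper65.NX.Mach) (t k z u : ℕ) [Decidable (∃ π < m.dg ^ k, m.walk t z π k = u)] :
    m.mem t k z u = if ∃ π < m.dg ^ k, m.walk t z π k = u then 1 else 0 := by
  unfold Pool.Agent.Helper65.NX.Mach.mem
  split_ifs with h
  · obtain ⟨π, hπ, h⟩ := h
    rw [lt01, if_pos]
    refine lt_of_lt_of_le ?_ (Finset.single_le_sum
      (f := fun π => eq01 (m.walk t z π k) u) (fun _ _ => Nat.zero_le _) (mem_range.2 hπ))
    show 0 < eq01 (m.walk t z π k) u
    rw [h, eq01, if_pos rfl]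
    exact Nat.one_pos
  · push Not at h
    rw [Finset.sum_eq_zero]
    · rfl
    · intro π hπ
      rw [eq01, if_neg (h π (mem_range.1 hπ))]

include F in
theorem cn_aux {c t : ℕ} (hc : P.ct c = t) (τ : ℕ) (hτ : t + τ ≤ R) (z : List Bool)
    (hz : z.length = p.length) (k : ℕ) (hk : k ≤ τ) :
    (P.win (num p) c).cnt τ k (num z) (Prm.wd (num p)) =
      (A.cone w.length p k (t + τ) z).ncard := by
  classical
  have hdg : (P.win (num p) c).dg = A.deg := F.dg
  have h1 : (P.win (num p) c).cnt τ k (num z) (Prm.wd (num p)) =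
      (((range (Prm.wd (num p))).filter fun u =>
        ∃ v ∈ A.cone w.length p k (t + τ) z, num v = u).card) := by
    rw [Finset.card_filter]
    unfold Pool.Agent.Helper65.NX.Mach.cnt
    refine Finset.sum_congr rfl fun u _ => ?_
    rw [mem_eq, hdg]
    simp only [walk_cone F hc k τ hk hτ z hz u]
  have h2 : (((range (Prm.wd (num p))).filter fun u =>
      ∃ v ∈ A.cone w.length p k (t + τ) z, num v = u) : Set ℕ) =
      num '' A.cone w.length p k (t + τ) z := by
    ext u
    simp only [coe_filter, mem_range, Set.mem_ofPred_eq, Set.mem_image]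
    constructor
    · exact fun h => h.2
    · rintro ⟨v, hv, h⟩
      refine ⟨?_, v, hv, h⟩
      rw [← h, wd_num, ← length_cone k _ z hz v hv]
      exact num_lt_len v
  rw [h1, ← Set.ncard_coe_finset, h2,
    Set.ncard_image_of_injective _ Pool.Agent.Helper78.Avg.num_injective]

end

/-- Packet WIN. -/
theorem win (hI : Pool.Agent.Helper65.NX.INP_stmt) (hS : Pool.Agent.Helper65.NX.STEP_stmt) :
    Pool.Agent.Helper65.NX.WIN_stmt := by
  intro A
  obtain ⟨eN, cI, hI⟩ := hI A
  obtain ⟨eA, eX, cS, hS⟩ := hS A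
  refine ⟨eN, eA, eX, cI + cS, ?_⟩
  intro w y p P k R hN hA hX hdg hx hy hp hZ hw hR hd hΛ hβ hMS hMZ
  have F : Facts A w y p P R := by
    refine ⟨hdg, ?_, ?_⟩
    · intro z hz t ht i hi
      refine hI w p z P k t i hN hx hz hp hZ hw (by omega) (by omega) ?_ (by omega) hMZ
      refine le_trans (Nat.mul_le_mul (Nat.le_add_right _ _) ?_) hΛ
      omega
    · intro z hz t ht X v h1 h2
      refine hS w y p z P k t X v hA hX hdg hx hy hz hp hZ hw (by omega) h1 h2 ?_ (by omega)
        hMS hMZ
      exact le_trans (Nat.mul_le_mul_right _ (Nat.le_add_left _ _)) hΛ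
  exact
    { ok := fun q c => win_ok P q c
      v1 := fun c t Rp τ h z hz hne => v1_aux F Rp τ h z hz hne
      v2 := fun c t Rp r hr hfit τ h z hz => v2_aux F Rp hr hfit τ h z hz
      cn := fun c t Rp τ h z hz k hk => cn_aux F Rp.ct τ h z hz k hk }

end Pool.Agent.Helper65.NX.K80
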